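import Mathlib
import Pool.Agent.H34R2.U.Fin3

set_option autoImplicit false

namespace Pool.Agent.Results.MP_56e01c_co.FullAnswer

open Classical
open Pool.Agent.Helper428.UMR

/-- Full answer for `m₁(n) = (n² - 3n) / 2` and `m₂(n) = (n² - 3n + 2) / 2`; `H` is always the
complement of `G`.
First part (`m = m₁(n)`, `n ≥ 3`, `n` missing edges): a uniformly most reliable graph exists for
every `n`; every `G` whose complement is 2-regular with at most five vertices in no triangle
(disjoint triangles and at most one cycle of length four or five) is uniformly most reliable, and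
for `n ≥ 5` there are no others.
Second part (`m = m₂(n)`, `n - 1` missing edges): a uniformly most reliable graph exists if and
only if `n ≡ 2 (mod 3)` or `n ∈ {1, 3, 4, 6}`; for `n ≡ 2 (mod 3)` the complements of disjoint
unions of triangles and single edges are uniformly most reliable, and for `n ≥ 7` there are no
others; for `n ≤ 3` every graph, for `n = 4` every connected graph and for `n = 6` the complement
of a path with two edges plus a triangle is uniformly most reliable. -/
theorem result :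
    (∀ n m : ℕ, 3 ≤ n → 2 * m + 3 * n = n ^ 2 →
      (∃ G : SimpleGraph (Fin n), G.edgeFinset.card = m ∧ IsUMR G) ∧
      (∀ G H : SimpleGraph (Fin n), G.edgeFinset.card = m → H = Gᶜ →
        ((∀ v, H.degree v = 2) ∧
          (Finset.univ.filter fun v => ¬ ∃ a b, H.Adj v a ∧ H.Adj v b ∧ H.Adj a b).card ≤ 5) →
        IsUMR G) ∧
      (5 ≤ n → ∀ G H : SimpleGraph (Fin n), G.edgeFinset.card = m → H = Gᶜ → IsUMR G →
        ((∀ v, H.degree v = 2) ∧
          (Finset.univ.filter fun v => ¬ ∃ a b, H.Adj v a ∧ H.Adj v b ∧ H.Adj a b).card ≤ 5))) ∧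
    (∀ n m : ℕ, 1 ≤ n → 2 * m + 3 * n = n ^ 2 + 2 →
      ((∃ G : SimpleGraph (Fin n), G.edgeFinset.card = m ∧ IsUMR G) ↔
        (n % 3 = 2 ∨ n = 1 ∨ n = 3 ∨ n = 4 ∨ n = 6)) ∧
      (n % 3 = 2 → ∀ G H : SimpleGraph (Fin n), G.edgeFinset.card = m → H = Gᶜ →
        ((∀ v, H.degree v = 1 ∨ H.degree v = 2) ∧
          ∀ u v w, H.Adj u v → H.Adj v w → u ≠ w → H.Adj u w) → IsUMR G) ∧
      (7 ≤ n → ∀ G H : SimpleGraph (Fin n), G.edgeFinset.card = m → H = Gᶜ → IsUMR G →
        n % 3 = 2 ∧ ((∀ v, H.degree v = 1 ∨ H.degree v = 2) ∧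
          ∀ u v w, H.Adj u v → H.Adj v w → u ≠ w → H.Adj u w)) ∧
      (n ≤ 3 → ∀ G : SimpleGraph (Fin n), G.edgeFinset.card = m → IsUMR G) ∧
      (n = 4 → ∀ G : SimpleGraph (Fin n), G.edgeFinset.card = m → G.Connected → IsUMR G) ∧
      (n = 6 → ∀ G H : SimpleGraph (Fin n), G.edgeFinset.card = m → H = Gᶜ →
        (∃ a b c x y z, [a, b, c, x, y, z].Nodup ∧ H.Adj a b ∧ H.Adj b c ∧ H.Adj x y ∧
          H.Adj y z ∧ H.Adj x z) → IsUMR G)) :=
  ⟨fun n m hn hm => Pool.Agent.H34R2.U.answer_m1 n m hn hm,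
    fun n m hn hm => Pool.Agent.H34R2.U.answer_m2 n m hn hm⟩

end Pool.Agent.Results.MP_56e01c_co.FullAnswer
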